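import Mathlib

set_option autoImplicit false

namespace Pool.Agent.Results.MP_3dabd4_an.MustVanish

open Polynomial Set Metric Filter Topology Asymptotics Bornology

theorem degX (R : ℂ[X]) : (X * derivative R).degree ≤ R.degree := by
  by_cases h : R = 0
  · simp [h]
  · rw [degree_mul, degree_X, add_comm]
    exact Nat.WithBot.add_one_le_of_lt (degree_derivative_lt h)

theorem cover (P Q : ℂ[X]) (N N' : ℂ → ℂ) (hN : ∀ z, N z = z - P.eval z / Q.eval z)
    (hd : ∀ z, Q.eval z ≠ 0 → HasStrictDerivAt N (N' z) z) (hPQ : ∀ z, P.eval z = 0 → Q.eval z ≠ 0)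
    (ζ : ℂ) (hζ : P.eval ζ = 0) (h0 : ∀ z, Q.eval z ≠ 0 → P.eval (N z) ≠ 0 → N' z ≠ 0)
    (ρ K : ℝ) (hb : ∀ z, ρ ≤ ‖z‖ → ‖P.eval z / Q.eval z‖ ≤ K) :
    IsCoveringMapOn (fun z : {z // Q.eval z ≠ 0} => N z) {w | P.eval w ≠ 0} := by
  have e : ∀ z, Q.eval z ≠ 0 → (z - N z) * Q.eval z = P.eval z := fun z hz => by
    rw [hN]; field_simp; ring
  refine IsClosedMap.isCoveringMapOn_of_isLocalHomeomorphOn (fun F hF => ?_) (fun w hw => ?_) ?_
  · refine isClosed_of_closure_subset fun w hw => ?_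
    obtain ⟨u, hu, hw⟩ := mem_closure_iff_seq_limit.1 hw
    choose z hz h1 using hu
    obtain ⟨B, hB⟩ := hw.norm.bddAbove_range
    obtain ⟨a, -, φ, hφ, ha⟩ := tendsto_subseq_of_bounded
      (isBounded_closedBall (x := (0 : ℂ)) (r := max ρ (B + K))) (x := fun k => (z k).1) fun k => by
        rw [mem_closedBall_zero_iff, le_max_iff]
        refine (le_total ‖(z k).1‖ ρ).imp_right fun h => ?_
        have h2 : (z k).1 = u k + P.eval (z k).1 / Q.eval (z k).1 := by
          rw [← h1]; beta_reduce; rw [hN]; ring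
        rw [h2]
        exact (norm_add_le _ _).trans (add_le_add (hB ⟨k, rfl⟩) (hb _ h))
    have h2 : (a - w) * Q.eval a = P.eval a := by
      refine tendsto_nhds_unique ((ha.sub (hw.comp hφ.tendsto_atTop)).mul
        ((Q.continuous.tendsto a).comp ha)) (((P.continuous.tendsto a).comp ha).congr fun k => ?_)
      simp only [Function.comp, ← h1, e _ (z _).2]
    have h3 : Q.eval a ≠ 0 := fun h => hPQ a (by rw [← h2, h, mul_zero]) h
    refine ⟨⟨a, h3⟩, hF.mem_of_tendsto (tendsto_subtype_rng.2 ha) (.of_forall fun k => hz _), ?_⟩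
    exact sub_right_injective (mul_right_cancel₀ h3 ((e a h3).trans h2.symm))
  · have h1 : (X - C w) * Q - P ≠ 0 := fun h => by
      have := congrArg (eval ζ) h
      simp [hζ, hPQ ζ hζ, sub_eq_zero] at this
      exact hw (this ▸ hζ)
    refine ((finite_setOfPred_isRoot h1).preimage Subtype.val_injective.injOn).subset fun z hz => ?_
    have h2 : N z = w := hz
    simp [← h2, e _ z.2]
  · refine IsLocalHomeomorphOn.comp (g := N) (t := {z | Q.eval z ≠ 0 ∧ P.eval (N z) ≠ 0})
      (fun x hx => ⟨_, ((hd x hx.1).hasStrictFDerivAt_equiv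
        (h0 x hx.1 hx.2)).mem_toOpenPartialHomeomorph_source, by simp⟩)
      ((isOpen_ne_fun Q.continuous continuous_const).isOpenEmbedding_subtypeVal.isLocalHomeomorph
        |>.isLocalHomeomorphOn) fun z hz => ⟨z.2, hz⟩

theorem result (P : ℂ[X]) (c : ℂ) (hP : 0 < P.natDegree) (hs : ∀ z, P.rootMultiplicity z ≤ 1)
    (hZ : ∀ z, (C (c ^ 2) * P + C (2 * c) * derivative P + derivative (derivative P)).eval z = 0 →
      P.eval z = 0 ∨ (C c * P + derivative P).eval z = 0) : c = 0 := by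
  by_contra hc
  have P0 : P ≠ 0 := ne_zero_of_natDegree_gt hP
  have c0 := norm_pos_iff.2 hc
  set Q := C c * P + derivative P with hQ
  have eQ : ∀ z, Q.eval z = c * P.eval z + P.derivative.eval z := fun z => by simp [hQ]
  have hPQ : ∀ z, P.eval z = 0 → Q.eval z ≠ 0 := fun z h1 h2 =>
    (hs z).not_gt ((one_lt_rootMultiplicity_iff_isRoot P0).2 ⟨h1, by simpa [eQ, h1] using h2⟩)
  have dQ : Q.degree = P.degree := by
    rw [hQ, degree_add_eq_left_of_degree_lt] <;> rw [degree_C_mul hc]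
    exact degree_derivative_lt P0
  obtain ⟨ζ, hζ⟩ := Complex.exists_root (natDegree_pos_iff_degree_pos.1 hP)
  set N : ℂ → ℂ := fun z => z - P.eval z / Q.eval z with hN
  set N' : ℂ → ℂ := fun z => 1 + (P.eval z * P.derivative.derivative.eval z -
    P.derivative.eval z * P.derivative.eval z) / Q.eval z ^ 2 with hN'
  have hd : ∀ z, Q.eval z ≠ 0 → HasStrictDerivAt N (N' z) z := fun z hz =>
    ((hasStrictDerivAt_id z).sub ((P.hasStrictDerivAt z).div (Q.hasStrictDerivAt z) hz)).congr_deriv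
      (by simp only [hN', hQ, derivative_add, derivative_C_mul, eval_add, eval_mul, eval_C]; ring)
  have eN : ∀ z, Q.eval z ≠ 0 → N' z * Q.eval z ^ 2 = P.eval z * (C (c ^ 2) * P +
      C (2 * c) * derivative P + derivative (derivative P)).eval z := fun z hz => by
    simp only [hN', add_mul, div_mul_cancel₀ _ (pow_ne_zero 2 hz)]
    simp [eQ]
    ring
  have h0 : ∀ z, Q.eval z ≠ 0 → P.eval (N z) ≠ 0 → N' z ≠ 0 := fun z h1 h2 h3 => by
    have h4 : P.eval z ≠ 0 := fun h => h2 (by simp [hN, h])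
    have := eN z h1
    rw [h3, zero_mul] at this
    exact (hZ z ((mul_eq_zero.1 this.symm).resolve_left h4)).elim h4 h1
  obtain ⟨ε, ε0, ε1, hε⟩ : ∃ ε > 0, ε ≤ 1 ∧ ∀ z ∈ ball ζ ε, N z ∈ ball ζ ε := by
    have h1 : N' ζ = 0 := by
      have := eN ζ (hPQ ζ hζ)
      rw [show P.eval ζ = 0 from hζ, zero_mul] at this
      exact (mul_eq_zero.1 this).resolve_right (pow_ne_zero 2 (hPQ ζ hζ))
    obtain ⟨ε, ε0, h⟩ := eventually_nhds_iff_ball.1
      ((hd ζ (hPQ ζ hζ)).hasDerivAt.isLittleO.bound one_pos)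
    refine ⟨min ε 1, by positivity, min_le_right _ _, fun z hz => ?_⟩
    have := h z (ball_subset_ball (min_le_left _ _) hz)
    rw [h1, smul_zero, sub_zero, one_mul, show N ζ = ζ by simp [hN, show P.eval ζ = 0 from hζ]] at this
    exact mem_ball_iff_norm.2 (this.trans_lt (mem_ball_iff_norm.1 hz))
  have o1 : P.derivative.eval =o[cobounded ℂ] Q.eval :=
    isLittleO_cobounded_of_degree_lt (dQ ▸ degree_derivative_lt P0)
  have o2 := ((isBigO_cobounded_of_degree_le dQ.ge).mul_isLittleO (isLittleO_cobounded_of_degree_lt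
    ((degX _).trans_lt (dQ ▸ degree_derivative_lt P0)))).sub
    (o1.mul_isBigO (isBigO_cobounded_of_degree_le ((degX P).trans dQ.ge)))
  have o3 : ∀ R : ℂ[X], R ≠ 0 → ∀ᶠ z in cobounded ℂ, R.eval z ≠ 0 := fun R h =>
    (eventually_cofinite_not_isRoot h).filter_mono
      (cobounded_eq_cocompact (α := ℂ) ▸ cocompact_le_cofinite)
  obtain ⟨ρ, -, hρ⟩ := (hasBasis_cobounded_norm (E := ℂ)).eventually_iff.1
    ((o1.bound one_half_pos).and ((o2.bound (show 0 < (6 * ‖c‖)⁻¹ by positivity)).and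
    ((o3 P P0).and ((o3 Q (ne_zero_of_degree_gt (dQ ▸ degree_derivative_lt P0))).and
    (eventually_cobounded_le_norm (‖ζ‖ + 1))))))
  have hb : ∀ z, ρ ≤ ‖z‖ → ‖P.derivative.eval z / Q.eval z‖ ≤ 1 / 2 ∧
      c * (P.eval z / Q.eval z) = 1 - P.derivative.eval z / Q.eval z := fun z hz => by
    obtain ⟨a, -, -, b, -⟩ := hρ hz
    refine ⟨by rw [norm_div, div_le_iff₀ (norm_pos_iff.2 b)]; exact a, ?_⟩
    field_simp
    rw [eQ]
    ring
  have cov := cover P Q N N' (fun _ => rfl) hd hPQ ζ hζ h0 ρ (2 / ‖c‖) fun z hz => by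
    rw [le_div_iff₀' c0, ← norm_mul, (hb z hz).2]
    refine (norm_sub_le _ _).trans ?_
    rw [norm_one]
    linarith [(hb z hz).1]
  set L : ℂ → ℝ := fun z => -(c * z).re with hL
  set M := max 1 (‖c‖ * ρ) with hM
  have hL1 : ∀ z, L z ≤ ‖c‖ * ‖z‖ := fun z =>
    (neg_le_abs _).trans ((Complex.abs_re_le_norm _).trans (norm_mul _ _).le)
  have hH : ∀ z, M < L z → ρ ≤ ‖z‖ := fun z h =>
    le_of_mul_le_mul_left ((le_max_right _ _).trans (h.le.trans (hL1 z))) c0
  have hstep : ∀ z, M < L z → L z + 1 / 2 ≤ L (N z) ∧ ‖N' z‖ ^ 2 * L z ≤ L (N z) := by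
    intro z h
    obtain ⟨a, b⟩ := hb z (hH z h)
    obtain ⟨-, d, -, e, -⟩ := hρ (hH z h)
    have h1 : L z + 1 / 2 ≤ L (N z) := by
      have := (le_abs_self _).trans ((Complex.abs_re_le_norm _).trans a)
      simp only [hL, hN, mul_sub, b, Complex.sub_re, Complex.one_re]
      linarith
    have h2 : 1 < L z := (le_max_left _ _).trans_lt h
    have h3 : ‖N' z - 1‖ * L z ≤ 1 / 6 := by
      have e1 : (N' z - 1) * z * (Q.eval z * Q.eval z) = P.eval z * (X * derivative (derivative P)).eval z -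
          P.derivative.eval z * (X * derivative P).eval z := by
        simp only [hN', eval_mul, eval_X]
        field_simp
        ring
      rw [← e1, norm_mul, norm_mul] at d
      have d' := le_of_mul_le_mul_right d (norm_pos_iff.2 (mul_ne_zero e e))
      rw [inv_eq_one_div, le_div_iff₀ (by positivity)] at d'
      nlinarith [mul_le_mul_of_nonneg_left (hL1 z) (norm_nonneg (N' z - 1))]
    have h4 : ‖N' z‖ ≤ ‖N' z - 1‖ + 1 := by simpa using norm_add_le (N' z - 1) 1
    have h5 := norm_nonneg (N' z - 1)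
    have h6 := pow_le_pow_left₀ (norm_nonneg _) h4 2
    have h7 : ‖N' z - 1‖ ≤ 1 / 6 := by nlinarith
    exact ⟨h1, by nlinarith⟩
  have main : ∀ n z, M < L z → ∀ R > 0, (∀ w ∈ ball (N^[n] z) R, M < L w) → ∃ g : ℂ → ℂ,
      DifferentiableOn ℂ g (ball (N^[n] z) R) ∧ g (N^[n] z) = z ∧
      (∀ w ∈ ball (N^[n] z) R, P.eval (g w) ≠ 0 ∧ g w ∉ ball ζ ε) ∧
      L z ≤ ‖deriv g (N^[n] z)‖ ^ 2 * L (N^[n] z) := by
    intro n
    induction n with
    | zero =>
      refine fun z hz R _ h => ⟨id, differentiableOn_id, rfl, fun w hw => ?_, by simp⟩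
      obtain ⟨-, -, a, -, b⟩ := hρ (hH w (h w hw))
      refine ⟨a, fun d => ?_⟩
      have := norm_sub_norm_le w ζ
      rw [mem_ball_iff_norm, id] at d
      linarith
    | succ n ih =>
      intro z hz R hR h
      rw [Function.iterate_succ_apply] at h ⊢
      obtain ⟨s1, s2⟩ := hstep z hz
      obtain ⟨g, g1, g2, g3, g4⟩ := ih (N z) (by linarith) R hR h
      set a := N^[n] (N z)
      have ha : a ∈ ball a R := mem_ball_self hR
      have := (convex_ball a R).contractibleSpace ⟨a, ha⟩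
      have := isOpen_ball.locallyPathConnectedSpace (U := ball a R)
      have hq := (hρ (hH z hz)).2.2.2.1
      obtain ⟨F, ⟨F1, F2⟩, -⟩ := cov.existsUnique_continuousMap_lifts
        (⟨_, g1.continuousOn.domRestrict⟩ : C(ball a R, ℂ)) (a₀ := ⟨a, ha⟩) (e₀ := ⟨z, hq⟩) g2.symm
        fun w => (g3 w w.2).1
      classical
      set G : ℂ → ℂ := fun w => if h : w ∈ ball a R then F ⟨w, h⟩ else 0 with hG
      have G1 : ∀ w ∈ ball a R, N (G w) = g w ∧ Q.eval (G w) ≠ 0 := fun w hw => by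
        simp only [hG, dif_pos hw]
        exact ⟨congrFun F2 ⟨w, hw⟩, (F _).2⟩
      have G2 : ContinuousOn G (ball a R) := continuousOn_iff_continuous_domRestrict.2
        ((continuous_subtype_val.comp F.continuous).congr fun w => by
          change _ = G w
          simp only [hG, dif_pos w.2]
          rfl)
      have G3 : ∀ w ∈ ball a R, HasDerivAt G (deriv g w / N' (G w)) w ∧ N' (G w) ≠ 0 := by
        intro w hw
        have hn := isOpen_ball.mem_nhds hw
        have h1 := h0 _ (G1 w hw).2 ((G1 w hw).1 ▸ (g3 w hw).1)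
        exact ⟨.of_comp_left (G2.continuousAt hn) (hd _ (G1 w hw).2).hasDerivAt
          (g1.differentiableAt hn).hasDerivAt h1 (eventually_of_mem hn fun y hy => (G1 y hy).1), h1⟩
      have G4 : G a = z := by simp only [hG, dif_pos ha, F1]
      refine ⟨G, fun w hw => (G3 w hw).1.differentiableAt.differentiableWithinAt, G4,
        fun w hw => ⟨fun e => (g3 w hw).1 ?_, fun e => (g3 w hw).2 ((G1 w hw).1 ▸ hε _ e)⟩, ?_⟩
      · rw [← (G1 w hw).1]; simp [hN, e]
      · obtain ⟨b1, b2⟩ := G3 a ha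
        rw [b1.deriv, G4, norm_div, div_pow, div_mul_eq_mul_div, le_div_iff₀ (by rw [G4] at b2; positivity)]
        linarith
  set z := -((M + 1 : ℝ) : ℂ) / c with hz
  have z1 : L z = M + 1 := by simp only [hL, hz]; rw [mul_div_cancel₀ _ hc]; simp
  have orb : ∀ n : ℕ, M + 1 + n / 2 ≤ L (N^[n] z) := by
    intro n
    induction n with
    | zero => simp [z1]
    | succ n ih =>
      rw [Function.iterate_succ_apply']
      have := (hstep (N^[n] z) (by linarith [n.cast_nonneg (α := ℝ)])).1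
      push_cast
      linarith
  have M1 : 1 ≤ M := le_max_left _ _
  set K := 2 / ε * ‖c‖ * ‖z - ζ‖ ^ 2 with hK
  obtain ⟨n, hn⟩ := exists_nat_ge (2 * M + 8 * K ^ 2)
  set a := N^[n] z
  have a1 : M + 1 + n / 2 ≤ L a := orb n
  have a2 : 0 < L a - M := by linarith [n.cast_nonneg (α := ℝ)]
  have R0 : 0 < (L a - M) / ‖c‖ := by positivity
  obtain ⟨g, g1, g2, g3, g4⟩ := main n z (by linarith) _ R0 fun w hw => by
    have h1 := hL1 (a - w)
    rw [mem_ball_iff_norm', lt_div_iff₀' c0] at hw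
    simp only [hL, mul_sub, Complex.sub_re] at h1 hw ⊢
    linarith
  have hne : ∀ w ∈ ball a ((L a - M) / ‖c‖), g w - ζ ≠ 0 ∧ ‖(g w - ζ)⁻¹‖ ≤ 1 / ε := fun w hw => by
    have := (g3 w hw).2
    rw [mem_ball_iff_norm, not_lt] at this
    exact ⟨norm_pos_iff.1 (ε0.trans_le this), by rw [norm_inv, one_div]; exact inv_anti₀ ε0 this⟩
  have ha := mem_ball_self (x := a) R0
  have s1 := Complex.norm_deriv_le_div_of_mapsTo_ball (f := fun w => (g w - ζ)⁻¹) (R₂ := 2 / ε)
    ((g1.sub_const ζ).inv fun w hw => (hne w hw).1) (fun w hw => by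
      rw [mem_closedBall_iff_norm]
      refine (norm_sub_le _ _).trans ?_
      rw [show 2 / ε = 1 / ε + 1 / ε by ring]
      exact add_le_add (hne w hw).2 (hne a ha).2) R0
  rw [(((g1.differentiableAt (isOpen_ball.mem_nhds ha)).hasDerivAt.sub_const ζ).fun_inv
    (hne a ha).1).deriv, norm_div, norm_neg, norm_pow, g2, div_div_eq_mul_div,
    div_le_div_iff₀ (by have := (hne a ha).1; rw [g2] at this; positivity) a2] at s1
  have s2 := pow_le_pow_left₀ (by positivity) s1 2
  rw [← hK, mul_pow] at s2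
  rw [z1] at g4
  have s3 := mul_le_mul_of_nonneg_right g4 (sq_nonneg (L a - M))
  have s4 := mul_le_mul_of_nonneg_right s2 (show 0 ≤ L a by linarith)
  have s5 : L a ≤ 2 * (L a - M) := by nlinarith [sq_nonneg K]
  have s6 := mul_le_mul_of_nonneg_left s5 (sq_nonneg K)
  nlinarith [sq_nonneg K, mul_pos a2 a2]

end Pool.Agent.Results.MP_3dabd4_an.MustVanish
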